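import Pool.Agent.Helper15.HD.Seq

set_option autoImplicit false

/-!
# A vertex without large fans (Dvořák's lemma)
-/

namespace Pool.Agent.Helper15.HD

open SimpleGraph Pool.Agent.Helper28.HD Finset

variable {V : Type} {G : SimpleGraph V}

/-- The bound on the size of fans. -/
def KK (r D : ℕ) : ℕ := 8 * r * D + r * D * (1 + 8 * r * r * D * (8 * r * D + 1)) + 1

open Classical in
/-- A maximal independent subset. -/
theorem exists_indep (U : Finset V) (J : V → V → Prop) (hJ : ∀ u v, J u v → J v u) (m : ℕ)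
    (hdeg : ∀ w ∈ U, (U.filter (fun u => J w u)).card ≤ m) :
    ∃ W ⊆ U, (∀ u ∈ W, ∀ v ∈ W, u ≠ v → ¬ J u v) ∧ U.card ≤ (m + 1) * W.card := by
  set ind : Finset V → Prop := fun W => ∀ u ∈ W, ∀ v ∈ W, u ≠ v → ¬ J u v with hinddef
  obtain ⟨W, hW, hmax⟩ := Finset.exists_max_image
    (U.powerset.filter ind) Finset.card
    ⟨∅, by simp [hinddef]⟩
  rw [Finset.mem_filter, Finset.mem_powerset] at hW
  obtain ⟨hWU, hind⟩ := hW
  refine ⟨W, hWU, hind, ?_⟩
  have hcov : U ⊆ W.biUnion (fun w => insert w (U.filter (fun u => J w u))) := by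
    intro u hu
    rw [Finset.mem_biUnion]
    by_cases huW : u ∈ W
    · exact ⟨u, huW, Finset.mem_insert_self _ _⟩
    by_contra hcon
    push Not at hcon
    have hno : ∀ w ∈ W, ¬ J w u := fun w hw hJw =>
      hcon w hw (Finset.mem_insert_of_mem (Finset.mem_filter.2 ⟨hu, hJw⟩))
    have hins : insert u W ∈ U.powerset.filter ind := by
      rw [Finset.mem_filter, Finset.mem_powerset]
      refine ⟨Finset.insert_subset hu hWU, ?_⟩
      intro a ha b hb hab hJab
      rw [Finset.mem_insert] at ha hb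
      rcases ha with rfl | ha <;> rcases hb with rfl | hb
      · exact hab rfl
      · exact hno b hb (hJ _ _ hJab)
      · exact hno a ha hJab
      · exact hind a ha b hb hab hJab
    have := hmax _ hins
    rw [Finset.card_insert_of_notMem huW] at this
    omega
  calc U.card ≤ (W.biUnion (fun w => insert w (U.filter (fun u => J w u)))).card :=
        Finset.card_le_card hcov
    _ ≤ ∑ w ∈ W, (insert w (U.filter (fun u => J w u))).card := Finset.card_biUnion_le
    _ ≤ ∑ _w ∈ W, (m + 1) := by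
        refine Finset.sum_le_sum fun w hw => ?_
        refine (Finset.card_insert_le _ _).trans ?_
        have := hdeg w (hWU hw)
        omega
    _ = (m + 1) * W.card := by rw [Finset.sum_const, smul_eq_mul, mul_comm]

open Classical in
/-- **Dvořák's lemma**: some vertex of `U` has no large fan. -/
theorem exists_no_fan {X U : Finset V} {r D : ℕ} (hr : 1 ≤ r) (hX : ∀ u v, G.Adj u v → u ∈ X)
    (hD : DB G X (2 * r) D) (hU : U ⊆ X) (hne : U.Nonempty) :
    ∃ v ∈ U, ¬ HasFan G r (U : Set V) v (KK r D) := by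
  by_contra hcon
  push Not at hcon
  obtain ⟨ι, hι, P, len, hP, hmax⟩ := exists_maximal hD hU
  have hcard : Fintype.card ι ≤ 2 * r * (D * U.card) := hP.card_le hD le_rfl hU
  -- joined vertices
  obtain ⟨J, hJ⟩ : ∃ J : V → V → Prop, ∀ w u, J w u ↔ ∃ i, s(P i 0, P i (len i)) = s(w, u) :=
    ⟨_, fun _ _ => Iff.rfl⟩
  have hJsymm : ∀ u v, J u v → J v u := by
    intro u v h
    rw [hJ] at h ⊢
    obtain ⟨i, hi⟩ := h
    exact ⟨i, by rw [hi, Sym2.eq_swap]⟩
  -- degrees
  set E : V → Finset ι := fun v => Finset.univ.filter (fun i => P i 0 = v ∨ P i (len i) = v)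
    with hEdef
  have hsum : ∑ v ∈ U, (E v).card ≤ 2 * Fintype.card ι := by
    calc ∑ v ∈ U, (E v).card
        = ∑ v ∈ U, ∑ i : ι, if (P i 0 = v ∨ P i (len i) = v) then 1 else 0 := by
          refine Finset.sum_congr rfl fun v _ => ?_
          rw [hEdef, Finset.card_filter]
      _ = ∑ i : ι, ∑ v ∈ U, if (P i 0 = v ∨ P i (len i) = v) then 1 else 0 := Finset.sum_comm
      _ ≤ ∑ _i : ι, 2 := by
          refine Finset.sum_le_sum fun i _ => ?_
          rw [← Finset.card_filter]
          refine le_trans (Finset.card_le_card (t := {P i 0, P i (len i)}) ?_) Finset.card_le_two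
          intro x hx
          rw [Finset.mem_filter] at hx
          rw [Finset.mem_insert, Finset.mem_singleton]
          rcases hx.2 with h | h
          · exact Or.inl h.symm
          · exact Or.inr h.symm
      _ = 2 * Fintype.card ι := by
          rw [Finset.sum_const, Finset.card_univ, smul_eq_mul, mul_comm]
  set U1 := U.filter (fun v => (E v).card ≤ 8 * r * D) with hU1
  set Uc := U.filter (fun v => ¬ (E v).card ≤ 8 * r * D) with hUc
  have hsplit : U.card = U1.card + Uc.card :=
    (Finset.card_filter_add_card_filter_not (s := U) (fun v => (E v).card ≤ 8 * r * D)).symm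
  have hUc2 : (8 * r * D + 1) * Uc.card ≤ 4 * r * D * U.card := by
    calc (8 * r * D + 1) * Uc.card = ∑ _v ∈ Uc, (8 * r * D + 1) := by
          rw [Finset.sum_const, smul_eq_mul, mul_comm]
      _ ≤ ∑ v ∈ Uc, (E v).card := by
          refine Finset.sum_le_sum fun v hv => ?_
          have := (Finset.mem_filter.1 hv).2
          omega
      _ ≤ ∑ v ∈ U, (E v).card :=
          Finset.sum_le_sum_of_subset (Finset.filter_subset _ _)
      _ ≤ 2 * Fintype.card ι := hsum
      _ ≤ 2 * (2 * r * (D * U.card)) := Nat.mul_le_mul_left _ hcard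
      _ = 4 * r * D * U.card := by ring
  have hU2U1 : U.card ≤ 2 * U1.card := by
    have h1 : (8 * r * D + 1) * (2 * Uc.card) ≤ (8 * r * D + 1) * U.card := by nlinarith
    have h2 : 2 * Uc.card ≤ U.card := Nat.le_of_mul_le_mul_left h1 (by omega)
    omega
  -- the number of vertices joined to `w`
  have hJcard : ∀ w, (U.filter (fun u => J w u)).card ≤ (E w).card := by
    intro w
    have hsub : U.filter (fun u => J w u) ⊆
        (E w).image (fun i => if P i 0 = w then P i (len i) else P i 0) := by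
      intro u hu
      obtain ⟨i, hi⟩ := (hJ _ _).1 (Finset.mem_filter.1 hu).2
      rw [Finset.mem_image]
      rw [Sym2.eq_iff] at hi
      rcases hi with ⟨h1, h2⟩ | ⟨h1, h2⟩
      · exact ⟨i, by simp [hEdef, h1], by simp [h1, h2]⟩
      · refine ⟨i, by simp [hEdef, h2], ?_⟩
        have : P i 0 ≠ w := fun h => hP.ends_ne i (h.trans h2.symm)
        show (if P i 0 = w then P i (len i) else P i 0) = u
        rw [if_neg this, h1]
    exact (Finset.card_le_card hsub).trans Finset.card_image_le
  obtain ⟨U2, hU2sub, hind, hU1U2⟩ := exists_indep U1 J hJsymm (8 * r * D) (by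
    intro w hw
    have h1 : (E w).card ≤ 8 * r * D := (Finset.mem_filter.1 hw).2
    refine le_trans ?_ h1
    refine le_trans ?_ (hJcard w)
    refine Finset.card_le_card fun u hu => ?_
    have hu' := Finset.mem_filter.1 hu
    exact Finset.mem_filter.2 ⟨(Finset.mem_filter.1 hu'.1).1, hu'.2⟩)
  have hU2U : U2 ⊆ U := hU2sub.trans (Finset.filter_subset _ _)
  -- the inner vertices
  set Mf : Finset V := (((Finset.univ : Finset ι) ×ˢ Finset.range (2 * r)).filter
    (fun p => 1 ≤ p.2 ∧ p.2 < len p.1)).image (fun p => P p.1 p.2) with hMf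
  have hMmem : ∀ x, x ∈ Mf ↔ x ∈ innerSet P len := by
    intro x
    rw [hMf, Finset.mem_image]
    constructor
    · rintro ⟨p, hp, rfl⟩
      have := (Finset.mem_filter.1 hp).2
      exact ⟨p.1, p.2, this.1, this.2, rfl⟩
    · rintro ⟨i, l, h1, h2, rfl⟩
      refine ⟨(i, l), Finset.mem_filter.2 ⟨?_, h1, h2⟩, rfl⟩
      have := hP.le i
      simp only [Finset.mem_product, Finset.mem_univ, Finset.mem_range, true_and]
      omega
  have hMU : ∀ x ∈ Mf, x ∉ U := by
    intro x hx
    rw [hMmem] at hx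
    obtain ⟨i, l, h1, h2, rfl⟩ := hx
    exact hP.inner i l h1 h2
  have hMX : Mf ⊆ X := by
    intro x hx
    rw [hMmem] at hx
    obtain ⟨i, l, h1, h2, rfl⟩ := hx
    exact hX _ _ (hP.adj i l h2)
  have hMcard : Mf.card ≤ Fintype.card ι * (2 * r) := by
    refine le_trans Finset.card_image_le ?_
    refine le_trans (Finset.card_filter_le _ _) ?_
    rw [Finset.card_product, Finset.card_univ, Finset.card_range]
  -- the fans
  have hfan : ∀ v, ∃ (Q : Fin (KK r D) → ℕ → V) (ql : Fin (KK r D) → ℕ),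
      v ∈ U → Fan G r (U : Set V) v Q ql := by
    intro v
    by_cases hv : v ∈ U
    · obtain ⟨Q, ql, h⟩ := hcon v hv
      exact ⟨Q, ql, fun _ => h⟩
    · exact ⟨fun _ _ => v, fun _ => 0, fun h => absurd h hv⟩
  choose Q ql hQ using hfan
  have hhit : ∀ v, ∀ i, ∃ f : ℕ, (∃ l, 1 ≤ l ∧ l ≤ ql v i ∧ Q v i l ∈ Mf) →
      (1 ≤ f ∧ f ≤ ql v i ∧ Q v i f ∈ Mf ∧ ∀ l, 1 ≤ l → l < f → Q v i l ∉ Mf) := by
    intro v i
    by_cases h : ∃ l, 1 ≤ l ∧ l ≤ ql v i ∧ Q v i l ∈ Mf
    · refine ⟨Nat.find h, fun _ => ?_⟩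
      obtain ⟨h1, h2, h3⟩ := Nat.find_spec h
      refine ⟨h1, h2, h3, fun l hl1 hl2 hl3 => ?_⟩
      exact Nat.find_min h hl2 ⟨hl1, by omega, hl3⟩
    · exact ⟨0, fun h' => absurd h' h⟩
  choose f hf using hhit
  set hit : V → Fin (KK r D) → Prop := fun v i => ∃ l, 1 ≤ l ∧ l ≤ ql v i ∧ Q v i l ∈ Mf
    with hhitdef
  -- few fan paths avoid `M`
  have hnohit : ∀ v ∈ U2, (Finset.univ.filter (fun i => ¬ hit v i)).card ≤ 8 * r * D := by
    intro v hv
    have hvU := hU2U hv
    have hFan := hQ v hvU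
    have h1 : (E v).card ≤ 8 * r * D := (Finset.mem_filter.1 (hU2sub hv)).2
    refine le_trans ?_ ((hJcard v).trans h1)
    refine Finset.card_le_card_of_injOn (fun i => Q v i (ql v i)) ?_ ?_
    · intro i hi
      have hi' : ¬ hit v i := (Finset.mem_filter.1 hi).2
      have hend : Q v i (ql v i) ∈ U := hFan.last i
      refine Finset.mem_coe.2 (Finset.mem_filter.2 ⟨hend, (hJ _ _).2 ?_⟩)
      refine joined_of_maximal hP hmax hvU hend (hFan.ne i _ (hFan.pos i) le_rfl).symm ?_
      have hnear := near_of_seq (G := G) (Q v i)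
        ({x | x ∉ U ∧ x ∉ innerSet P len} ∪ {v, Q v i (ql v i)}) 0 (ql v i) (Nat.zero_le _)
        (fun l _ h2 => hFan.adj i l h2) (fun l _ h2 => ?_)
      · rw [hFan.start i] at hnear
        exact hnear.mono (by have := hFan.le i; omega) subset_rfl
      · rcases Nat.eq_zero_or_pos l with h0 | h0
        · right; left; rw [h0, hFan.start i]
        · rcases Nat.lt_or_ge l (ql v i) with h3 | h3
          · left
            refine ⟨hFan.inner i l h0 h3, fun h4 => hi' ⟨l, h0, h2, ?_⟩⟩
            rw [hMmem]; exact h4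
          · right; right
            rw [show l = ql v i by omega]; rfl
    · intro i _ j _ hij
      exact (hFan.inj i j _ _ (hFan.pos i) le_rfl (hFan.pos j) le_rfl hij).1
  have hmanyhit : ∀ v ∈ U2, KK r D - 8 * r * D ≤ (Finset.univ.filter (fun i => hit v i)).card := by
    intro v hv
    have h1 := hnohit v hv
    have h2 := Finset.card_filter_add_card_filter_not (s := (Finset.univ : Finset (Fin (KK r D))))
      (fun i => hit v i)
    rw [Finset.card_univ, Fintype.card_fin] at h2
    omega
  -- the new family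
  set I : Finset (V × Fin (KK r D)) := (U2 ×ˢ Finset.univ).filter (fun p => hit p.1 p.2) with hI
  have hIcard : U2.card * (KK r D - 8 * r * D) ≤ I.card := by
    have h1 : I.card = ∑ v ∈ U2, (Finset.univ.filter (fun i => hit v i)).card := by
      rw [hI, Finset.card_filter, Finset.sum_product]
      refine Finset.sum_congr rfl fun v _ => ?_
      rw [Finset.card_filter]
    rw [h1]
    calc U2.card * (KK r D - 8 * r * D) = ∑ _v ∈ U2, (KK r D - 8 * r * D) := by
          rw [Finset.sum_const, smul_eq_mul]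
      _ ≤ _ := Finset.sum_le_sum fun v hv => hmanyhit v hv
  have hfam : PFam G r ((U2 ∪ Mf : Finset V) : Set V) (fun p : I => Q p.1.1 p.1.2)
      (fun p : I => f p.1.1 p.1.2) := by
    have hpU2 : ∀ p : I, p.1.1 ∈ U2 := fun p =>
      (Finset.mem_product.1 (Finset.mem_filter.1 p.2).1).1
    have hpf := fun p : I => hf p.1.1 p.1.2 (Finset.mem_filter.1 p.2).2
    have hpQ := fun p : I => hQ p.1.1 (hU2U (hpU2 p))
    have hpin : ∀ (p : I) (l : ℕ), 1 ≤ l → l < f p.1.1 p.1.2 →
        Q p.1.1 p.1.2 l ∉ U ∧ Q p.1.1 p.1.2 l ∉ Mf := by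
      intro p l h1 h2
      refine ⟨(hpQ p).inner _ l h1 (by have := (hpf p).2.1; omega), (hpf p).2.2.2 l h1 h2⟩
    refine ⟨fun p => (hpf p).1, fun p => (hpf p).2.1.trans ((hpQ p).le _), fun p => ?_, fun p => ?_,
      fun p => ?_, fun p l hl => ?_, fun p l h1 h2 => ?_, fun p q l m h1 h2 h3 h4 h5 => ?_,
      fun p q hpq => ?_⟩
    · rw [(hpQ p).start]
      exact Finset.mem_coe.2 (Finset.mem_union_left _ (hpU2 p))
    · exact Finset.mem_coe.2 (Finset.mem_union_right _ (hpf p).2.2.1)
    · rw [(hpQ p).start]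
      intro h
      exact hMU _ (hpf p).2.2.1 (h ▸ hU2U (hpU2 p))
    · exact (hpQ p).adj _ l (by have := (hpf p).2.1; omega)
    · intro h
      rcases Finset.mem_union.1 (Finset.mem_coe.1 h) with h | h
      · exact (hpin p l h1 h2).1 (hU2U h)
      · exact (hpin p l h1 h2).2 h
    · have h2' := (hpf p).2.1
      have h4' := (hpf q).2.1
      by_cases hvw : p.1.1 = q.1.1
      · rw [← hvw] at h4 h4' h5
        obtain ⟨e1, e2⟩ := (hpQ p).inj p.1.2 q.1.2 l m h1 (by omega) h3 (by omega) h5
        exact ⟨Subtype.ext (Prod.ext hvw e1), e2⟩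
      · exfalso
        refine hind _ (hpU2 p) _ (hpU2 q) hvw ((hJ _ _).2 ?_)
        refine joined_of_maximal hP hmax (hU2U (hpU2 p)) (hU2U (hpU2 q)) hvw ?_
        have n1 := near_of_seq (G := G) (Q p.1.1 p.1.2)
          ({x | x ∉ U ∧ x ∉ innerSet P len} ∪ {p.1.1, q.1.1}) 0 l (Nat.zero_le _)
          (fun a _ ha => (hpQ p).adj _ a (by omega)) (fun a _ ha => by
            rcases Nat.eq_zero_or_pos a with h0 | h0
            · right; left; rw [h0, (hpQ p).start]
            · left
              obtain ⟨g1, g2⟩ := hpin p a h0 (by omega)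
              exact ⟨g1, fun h => g2 ((hMmem _).2 h)⟩)
        have n2 := near_of_seq (G := G) (Q q.1.1 q.1.2)
          ({x | x ∉ U ∧ x ∉ innerSet P len} ∪ {p.1.1, q.1.1}) 0 m (Nat.zero_le _)
          (fun a _ ha => (hpQ q).adj _ a (by omega)) (fun a _ ha => by
            rcases Nat.eq_zero_or_pos a with h0 | h0
            · right; right; rw [h0, (hpQ q).start]; rfl
            · left
              obtain ⟨g1, g2⟩ := hpin q a h0 (by omega)
              exact ⟨g1, fun h => g2 ((hMmem _).2 h)⟩)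
        rw [(hpQ p).start, h5] at n1
        rw [(hpQ q).start] at n2
        have hlp := (hpQ p).le p.1.2
        have hlq := (hpQ q).le q.1.2
        exact (n1.trans n2.symm).mono (by omega) subset_rfl
    · intro h
      rw [(hpQ p).start, (hpQ q).start, Sym2.eq_iff] at h
      rcases h with ⟨h1, h2⟩ | ⟨h1, h2⟩
      · have g1 := (hpf q).1
        have g2 := (hpf q).2.1
        rw [← h1] at g1 g2 h2
        obtain ⟨e1, e2⟩ := (hpQ p).inj p.1.2 q.1.2 _ _ (hpf p).1 (hpf p).2.1 g1 g2 h2
        exact hpq (Subtype.ext (Prod.ext h1 e1))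
      · exact hMU _ (hpf q).2.2.1 (h1 ▸ hU2U (hpU2 p))
  have hYX : (U2 ∪ Mf : Finset V) ⊆ X := Finset.union_subset (hU2U.trans hU) hMX
  have hIle := hfam.card_le hD (by omega) hYX
  rw [Fintype.card_coe] at hIle
  have hYc : (U2 ∪ Mf).card ≤ U2.card + Mf.card := Finset.card_union_le _ _
  -- arithmetic
  have hUpos : 0 < U.card := Finset.card_pos.2 hne
  have hU2pos : 0 < U2.card := by
    by_contra h0
    have h0' : U2.card = 0 := by omega
    rw [h0', mul_zero] at hU1U2
    omega
  have hM2 : Mf.card ≤ 8 * r * r * D * (8 * r * D + 1) * U2.card := by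
    calc Mf.card ≤ Fintype.card ι * (2 * r) := hMcard
      _ ≤ (2 * r * (D * U.card)) * (2 * r) := Nat.mul_le_mul_right _ hcard
      _ = 4 * r * r * D * U.card := by ring
      _ ≤ 4 * r * r * D * (2 * ((8 * r * D + 1) * U2.card)) :=
          Nat.mul_le_mul_left _ (hU2U1.trans (Nat.mul_le_mul_left _ hU1U2))
      _ = 8 * r * r * D * (8 * r * D + 1) * U2.card := by ring
  have hKK : KK r D - 8 * r * D = r * D * (1 + 8 * r * r * D * (8 * r * D + 1)) + 1 := by
    unfold KK
    omega
  rw [hKK] at hIcard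
  have hfin : U2.card * (r * D * (1 + 8 * r * r * D * (8 * r * D + 1)) + 1) ≤
      U2.card * (r * D * (1 + 8 * r * r * D * (8 * r * D + 1))) := by
    calc U2.card * (r * D * (1 + 8 * r * r * D * (8 * r * D + 1)) + 1) ≤ I.card := hIcard
      _ ≤ r * (D * (U2 ∪ Mf).card) := hIle
      _ ≤ r * (D * (U2.card + 8 * r * r * D * (8 * r * D + 1) * U2.card)) := by
          refine Nat.mul_le_mul_left _ (Nat.mul_le_mul_left _ ?_)
          omega
      _ = U2.card * (r * D * (1 + 8 * r * r * D * (8 * r * D + 1))) := by ring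
  have := Nat.le_of_mul_le_mul_left hfin hU2pos
  omega

end Pool.Agent.Helper15.HD
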