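import Pool.Agent.Helper84.HD.St
import Pool.Agent.Helper28.PC.Mert

/-!
# Project HD (MP_8be7de_nt), module SM: smooth integers
-/

set_option autoImplicit false

namespace Pool.Agent.Helper15.HD

open Finset Filter Topology Pool.Agent.Helper84.HD
open Pool.Agent.Helper4.DE (C Lg LogDens IsMultClosed t D Z)

/-- The exponent of `p` in the elements of a subset of `[1, N]`. -/
theorem val_SM (N p : ℕ) (hp : p.Prime) (S : Finset ℕ) (hS : S ⊆ Icc 1 N) :
    (∑ n ∈ S, (n.factorization p : ℝ)) ≤ 2 * N / p := by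
  have h1 : (∑ n ∈ S, (n.factorization p : ℝ)) ≤ ∑ n ∈ Icc 1 N, (n.factorization p : ℝ) :=
    sum_le_sum_of_subset_of_nonneg hS fun _ _ _ => Nat.cast_nonneg _
  have h2 : ∑ n ∈ Icc 1 N, n.factorization p = N.factorial.factorization p := by
    have hI : Icc 1 N = Ico 1 (N + 1) := by
      ext n
      simp only [mem_Icc, mem_Ico]
      omega
    rw [hI, ← Finset.prod_Ico_id_eq_factorial, Nat.factorization_prod]
    · rw [Finsupp.finset_sum_apply]
    · intro n hn
      have := (mem_Ico.mp hn).1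
      omega
  have h3 : (p - 1) * N.factorial.factorization p ≤ N := by
    have := Fact.mk hp
    rw [Nat.factorization_def _ hp, sub_one_mul_padicValNat_factorial]
    exact Nat.sub_le _ _
  have h4 : ((p : ℝ) - 1) * (N.factorial.factorization p : ℝ) ≤ N := by
    have : (((p - 1 : ℕ) : ℝ)) * (N.factorial.factorization p : ℝ) ≤ N := by exact_mod_cast h3
    rwa [Nat.cast_sub hp.one_le, Nat.cast_one] at this
  have hp2 : (2 : ℝ) ≤ p := by exact_mod_cast hp.two_le
  have h5 : (∑ n ∈ Icc 1 N, (n.factorization p : ℝ)) = (N.factorial.factorization p : ℝ) := by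
    exact_mod_cast h2
  refine h1.trans ?_
  rw [h5, le_div_iff₀ (by linarith)]
  have h6 : (0 : ℝ) ≤ (N.factorial.factorization p : ℝ) := Nat.cast_nonneg _
  nlinarith

/-- The sum of the logarithms. -/
theorem sumlog_SM (N Y : ℕ) (S : Finset ℕ) (hS : S ⊆ Icc 1 N)
    (hY : ∀ n ∈ S, ∀ p : ℕ, p.Prime → p ∣ n → p ≤ Y) :
    ∑ n ∈ S, Real.log n ≤ 2 * N * ∑ p ∈ Y.primesLE, Real.log p / p := by
  have h1 : ∀ n ∈ S, Real.log n = ∑ p ∈ Y.primesLE, (n.factorization p : ℝ) * Real.log p := by
    intro n hn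
    rw [Real.log_nat_eq_sum_factorization, Finsupp.sum]
    apply sum_subset
    · intro p hp
      rw [Nat.support_factorization, Nat.mem_primeFactors] at hp
      rw [Nat.mem_primesLE]
      exact ⟨hY n hn p hp.1 hp.2.1, hp.1⟩
    · intro p _ hp
      rw [Finsupp.notMem_support_iff] at hp
      simp [hp]
  rw [sum_congr rfl h1, sum_comm, mul_sum]
  apply sum_le_sum
  intro p hp
  have hpp : p.Prime := (Nat.mem_primesLE.mp hp).2
  rw [← sum_mul]
  have h2 := val_SM N p hpp S hS
  have h3 : 0 ≤ Real.log p := Real.log_nonneg (by exact_mod_cast hpp.one_le)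
  calc (∑ n ∈ S, (n.factorization p : ℝ)) * Real.log p ≤ 2 * N / p * Real.log p :=
        mul_le_mul_of_nonneg_right h2 h3
    _ = 2 * N * (Real.log p / p) := by ring

/-- Module SM. -/
theorem hSM : StSM := by
  refine ⟨6, by norm_num, ?_⟩
  intro κ hκ0 hκ1
  have hlog : Tendsto (fun N : ℕ => Real.log N) atTop atTop :=
    Real.tendsto_log_atTop.comp tendsto_natCast_atTop_atTop
  have hsq : Tendsto (fun N : ℕ => √(N : ℝ)) atTop atTop :=
    Real.tendsto_sqrt_atTop.comp tendsto_natCast_atTop_atTop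
  filter_upwards [hlog.eventually_ge_atTop (4 * Real.log 4 / κ), hsq.eventually_ge_atTop (1 / κ),
    eventually_ge_atTop 2] with N hN1 hN2 hN3
  classical
  have hN0 : (0 : ℝ) < N := by positivity
  have hN1' : (1 : ℝ) ≤ N := by exact_mod_cast (by omega : 1 ≤ N)
  have hL : 0 < Real.log N := Real.log_pos (by exact_mod_cast (by omega : 1 < N))
  set y : ℝ := (N : ℝ) ^ κ with hy
  have hy1 : 1 ≤ y := Real.one_le_rpow hN1' hκ0.le
  set Y : ℕ := ⌊y⌋₊ with hYdef
  have hY1 : 1 ≤ Y := (Nat.one_le_floor_iff y).mpr hy1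
  have hYy : (Y : ℝ) ≤ y := Nat.floor_le (by linarith)
  have hlogY : Real.log Y ≤ κ * Real.log N := by
    have h1 : Real.log Y ≤ Real.log y := Real.log_le_log (by exact_mod_cast hY1) hYy
    rwa [hy, Real.log_rpow hN0] at h1
  set S : Finset ℕ := (Ioc 0 N).filter
    (· ∈ {n : ℕ | ∀ p : ℕ, p.Prime → p ∣ n → (p : ℝ) ≤ y}) with hS
  have hC : C {n | ∀ p : ℕ, p.Prime → p ∣ n → (p : ℝ) ≤ y} N = (S.card : ℝ) := by
    unfold C
    rw [hS]
  rw [hC]
  have hSsub : S ⊆ Icc 1 N := by
    intro n hn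
    have h := (mem_filter.mp hn).1
    rw [mem_Ioc] at h
    rw [mem_Icc]
    omega
  have hSY : ∀ n ∈ S, ∀ p : ℕ, p.Prime → p ∣ n → p ≤ Y := by
    intro n hn p hp hd
    have h := (mem_filter.mp hn).2 p hp hd
    exact Nat.le_floor h
  have hsum := sumlog_SM N Y S hSsub hSY
  have hmert := Pool.Agent.Helper28.PC.mertens_upper Y hY1
  have htot : ∑ n ∈ S, Real.log n ≤ 2 * N * (κ * Real.log N + Real.log 4) := by
    refine hsum.trans ?_
    apply mul_le_mul_of_nonneg_left _ (by positivity)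
    linarith
  -- split
  set T : Finset ℕ := S.filter (fun n => N < n ^ 2) with hT
  set U : Finset ℕ := S.filter (fun n => ¬ N < n ^ 2) with hU
  have hcard : S.card = T.card + U.card := (card_filter_add_card_filter_not _).symm
  have hlog0 : ∀ n ∈ S, 0 ≤ Real.log (n : ℝ) := by
    intro n hn
    have h := (mem_Icc.mp (hSsub hn)).1
    exact Real.log_nonneg (by exact_mod_cast h)
  have hTc : (T.card : ℝ) * (Real.log N / 2) ≤ 2 * N * (κ * Real.log N + Real.log 4) := by
    refine le_trans ?_ htot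
    calc (T.card : ℝ) * (Real.log N / 2) = ∑ n ∈ T, Real.log N / 2 := by
          rw [sum_const, nsmul_eq_mul]
      _ ≤ ∑ n ∈ T, Real.log n := by
          apply sum_le_sum
          intro n hn
          have h := (mem_filter.mp hn).2
          have h1 : (N : ℝ) ≤ (n : ℝ) ^ 2 := by exact_mod_cast h.le
          have h2 := Real.log_le_log hN0 h1
          rw [Real.log_pow] at h2
          push_cast at h2
          linarith
      _ ≤ ∑ n ∈ S, Real.log n :=
          sum_le_sum_of_subset_of_nonneg (filter_subset _ _) fun n hn _ => hlog0 n hn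
  have hUc : (U.card : ℝ) ≤ √(N : ℝ) := by
    have h1 : U ⊆ Icc 1 (Nat.sqrt N) := by
      intro n hn
      have h := mem_filter.mp hn
      have h2 := (mem_Icc.mp (hSsub h.1)).1
      rw [mem_Icc]
      refine ⟨h2, ?_⟩
      rw [Nat.le_sqrt']
      exact not_lt.mp h.2
    have h2 : U.card ≤ Nat.sqrt N := by
      have := card_le_card h1
      simpa using this
    have h3 : (U.card : ℝ) ≤ (Nat.sqrt N : ℝ) := by exact_mod_cast h2
    exact h3.trans Real.nat_sqrt_le_real_sqrt
  -- numbers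
  have e1 : (T.card : ℝ) ≤ 4 * κ * N + κ * N := by
    have h4 : 4 * Real.log 4 ≤ κ * Real.log N := by
      rw [div_le_iff₀ hκ0] at hN1
      linarith
    have h5 : (T.card : ℝ) * Real.log N ≤ (4 * κ * N + κ * N) * Real.log N := by
      have : 4 * N * Real.log 4 ≤ N * (κ * Real.log N) := by nlinarith
      nlinarith
    exact le_of_mul_le_mul_right h5 hL
  have e2 : √(N : ℝ) ≤ κ * N := by
    have h6 : √(N : ℝ) * √(N : ℝ) = N := Real.mul_self_sqrt hN0.le
    have h7 : 1 ≤ κ * √(N : ℝ) := by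
      rw [div_le_iff₀ hκ0] at hN2
      linarith
    have h8 : 0 ≤ √(N : ℝ) := Real.sqrt_nonneg _
    nlinarith
  have e3 : (S.card : ℝ) = T.card + U.card := by exact_mod_cast hcard
  rw [e3]
  linarith

end Pool.Agent.Helper15.HD
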