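import Pool.Agent.Helper28.HD.Defs

set_option autoImplicit false

/-!
# Families of paths of bounded length, maximal families, fans
-/

namespace Pool.Agent.Helper15.HD

open SimpleGraph Pool.Agent.Helper28.HD

variable {V : Type} {G : SimpleGraph V}

/-- From a sequence of adjacent vertices to `Near`. -/
theorem near_of_seq (P : ℕ → V) (A : Set V) (a b : ℕ) (hab : a ≤ b)
    (hadj : ∀ l, a ≤ l → l < b → G.Adj (P l) (P (l + 1))) (hmem : ∀ l, a ≤ l → l ≤ b → P l ∈ A) :
    Near G A (b - a) (P a) (P b) := by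
  induction b, hab using Nat.le_induction with
  | base => simpa using near_refl (hmem a le_rfl le_rfl)
  | succ b hab ih =>
    have h1 := ih (fun l h1 h2 => hadj l h1 (by omega)) (fun l h1 h2 => hmem l h1 (by omega))
    have h2 := near_of_adj (hadj b hab (by omega)) (hmem b hab (by omega)) (hmem (b + 1) (by omega) le_rfl)
    exact (h1.trans h2).mono (by omega) subset_rfl

/-- From `Near` to an injective sequence of adjacent vertices. -/
theorem seq_of_near {A : Set V} {k : ℕ} {u v : V} (h : Near G A k u v) :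
    ∃ (P : ℕ → V) (n : ℕ), n ≤ k ∧ P 0 = u ∧ P n = v ∧ (∀ l, l < n → G.Adj (P l) (P (l + 1))) ∧
      (∀ l, P l ∈ A) ∧ ∀ l m, l ≤ n → m ≤ n → P l = P m → l = m := by
  classical
  obtain ⟨p, hp, hA⟩ := h
  refine ⟨p.bypass.getVert, p.bypass.length, (p.length_bypass_le_length).trans hp,
    Walk.getVert_zero _, Walk.getVert_length _, fun l hl => Walk.adj_getVert_succ _ hl, fun l => ?_,
    fun l m hl hm h => ?_⟩
  · exact hA _ (p.support_bypass_subset_support (Walk.getVert_mem_support _ l))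
  · exact p.bypass_isPath.getVert_injOn hl hm h

/-- A family of internally disjoint paths of length between `1` and `L` with ends in `X`. -/
structure PFam (G : SimpleGraph V) (L : ℕ) (X : Set V) {ι : Type} (P : ι → ℕ → V) (len : ι → ℕ) :
    Prop where
  pos : ∀ i, 1 ≤ len i
  le : ∀ i, len i ≤ L
  left_mem : ∀ i, P i 0 ∈ X
  right_mem : ∀ i, P i (len i) ∈ X
  ends_ne : ∀ i, P i 0 ≠ P i (len i)
  adj : ∀ i, ∀ l, l < len i → G.Adj (P i l) (P i (l + 1))
  inner : ∀ i, ∀ l, 1 ≤ l → l < len i → P i l ∉ X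
  inj : ∀ i j, ∀ l m, 1 ≤ l → l < len i → 1 ≤ m → m < len j → P i l = P j m → i = j ∧ l = m
  pairs : ∀ i j, i ≠ j → s(P i 0, P i (len i)) ≠ s(P j 0, P j (len j))

/-- The density hypothesis: every `s`-family, `s < L`, on `Y ⊆ X` has at most `D |Y|` members. -/
def DB (G : SimpleGraph V) (X : Finset V) (L D : ℕ) : Prop :=
  ∀ s, s < L → ∀ Y : Finset V, Y ⊆ X → ∀ (ι : Type) [Fintype ι] (P : ι → ℕ → V),
    IsFam G s (Y : Set V) P → Fintype.card ι ≤ D * Y.card

theorem PFam.card_le {X Y : Finset V} {L L' D : ℕ} (hD : DB G X L' D) (hL : L ≤ L') (hY : Y ⊆ X)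
    {ι : Type} [Fintype ι] {P : ι → ℕ → V} {len : ι → ℕ} (h : PFam G L (Y : Set V) P len) :
    Fintype.card ι ≤ L * (D * Y.card) := by
  classical
  have h1 : (Finset.univ : Finset ι).card =
      ∑ s ∈ Finset.range L, (Finset.univ.filter (fun i : ι => len i - 1 = s)).card := by
    apply Finset.card_eq_sum_card_fiberwise
    intro i _
    have := h.pos i
    have := h.le i
    simp only [Finset.coe_range, Set.mem_Iio]
    omega
  rw [← Finset.card_univ, h1]
  calc ∑ s ∈ Finset.range L, (Finset.univ.filter (fun i : ι => len i - 1 = s)).card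
      ≤ ∑ s ∈ Finset.range L, D * Y.card := by
        refine Finset.sum_le_sum fun s hs => ?_
        rw [Finset.mem_range] at hs
        have hcard : (Finset.univ.filter (fun i : ι => len i - 1 = s)).card =
            Fintype.card {i : ι // len i - 1 = s} := by
          rw [Fintype.card_subtype]
        rw [hcard]
        refine hD s (by omega) Y hY _ (fun i => P i.1) ?_
        have hlen : ∀ i : {i : ι // len i - 1 = s}, len i.1 = s + 1 := fun i => by
          have := h.pos i.1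
          have := i.2
          omega
        refine ⟨fun i => h.left_mem i.1, fun i => ?_, fun i => ?_, fun i l hl => ?_,
          fun i l h1 h2 => ?_, fun i j l m h1 h2 h3 h4 h5 => ?_, fun i j hij => ?_⟩
        · rw [← hlen i]; exact h.right_mem i.1
        · rw [← hlen i]; exact h.ends_ne i.1
        · exact h.adj i.1 l (by rw [hlen i]; omega)
        · exact h.inner i.1 l h1 (by rw [hlen i]; omega)
        · obtain ⟨e1, e2⟩ := h.inj i.1 j.1 l m h1 (by rw [hlen i]; omega) h3
            (by rw [hlen j]; omega) h5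
          exact ⟨Subtype.ext e1, e2⟩
        · have := h.pairs i.1 j.1 (fun e => hij (Subtype.ext e))
          rw [hlen i, hlen j] at this
          exact this
    _ = L * (D * Y.card) := by rw [Finset.sum_const, Finset.card_range, smul_eq_mul]

/-- Adding one path to a family. -/
theorem PFam.extend {L : ℕ} {X : Set V} {ι : Type} {P : ι → ℕ → V} {len : ι → ℕ}
    (h : PFam G L X P len) (Q : ℕ → V) (n : ℕ) (h1 : 1 ≤ n) (h2 : n ≤ L) (h3 : Q 0 ∈ X)
    (h4 : Q n ∈ X) (h5 : Q 0 ≠ Q n) (h6 : ∀ l, l < n → G.Adj (Q l) (Q (l + 1)))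
    (h7 : ∀ l, 1 ≤ l → l < n → Q l ∉ X)
    (h8 : ∀ l m, 1 ≤ l → l < n → 1 ≤ m → m < n → Q l = Q m → l = m)
    (h9 : ∀ i l m, 1 ≤ l → l < n → 1 ≤ m → m < len i → Q l ≠ P i m)
    (h10 : ∀ i, s(P i 0, P i (len i)) ≠ s(Q 0, Q n)) :
    PFam G L X (fun o : Option ι => o.elim Q P) (fun o : Option ι => o.elim n len) := by
  refine ⟨?_, ?_, ?_, ?_, ?_, ?_, ?_, ?_, ?_⟩
  · rintro (_ | i); exacts [h1, h.pos i]
  · rintro (_ | i); exacts [h2, h.le i]
  · rintro (_ | i); exacts [h3, h.left_mem i]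
  · rintro (_ | i); exacts [h4, h.right_mem i]
  · rintro (_ | i); exacts [h5, h.ends_ne i]
  · rintro (_ | i); exacts [h6, h.adj i]
  · rintro (_ | i); exacts [h7, h.inner i]
  · rintro (_ | i) (_ | j) l m a1 a2 a3 a4 a5
    · exact ⟨rfl, h8 l m a1 a2 a3 a4 a5⟩
    · exact absurd a5 (h9 j l m a1 a2 a3 a4)
    · exact absurd a5.symm (h9 i m l a3 a4 a1 a2)
    · obtain ⟨e1, e2⟩ := h.inj i j l m a1 a2 a3 a4 a5
      exact ⟨by rw [e1], e2⟩
  · rintro (_ | i) (_ | j) hij
    · exact absurd rfl hij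
    · exact (h10 j).symm
    · exact h10 i
    · exact h.pairs i j (fun e => hij (by rw [e]))

/-- A maximal family of paths. -/
theorem exists_maximal {X U : Finset V} {L D : ℕ} (hD : DB G X L D) (hU : U ⊆ X) :
    ∃ (ι : Type) (_ : Fintype ι) (P : ι → ℕ → V) (len : ι → ℕ), PFam G L (U : Set V) P len ∧
      ∀ (P' : Option ι → ℕ → V) (len' : Option ι → ℕ), ¬ PFam G L (U : Set V) P' len' := by
  by_contra hcon
  push Not at hcon
  have hall : ∀ m : ℕ, ∃ (ι : Type) (_ : Fintype ι) (P : ι → ℕ → V) (len : ι → ℕ),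
      PFam G L (U : Set V) P len ∧ Fintype.card ι = m := by
    intro m
    induction m with
    | zero =>
      refine ⟨Empty, inferInstance, fun e => e.elim, fun e => e.elim, ?_, by simp⟩
      exact ⟨fun e => e.elim, fun e => e.elim, fun e => e.elim, fun e => e.elim, fun e => e.elim,
        fun e => e.elim, fun e => e.elim, fun e => e.elim, fun e => e.elim⟩
    | succ m ih =>
      obtain ⟨ι, hι, P, len, hP, hm⟩ := ih
      obtain ⟨P', len', hP'⟩ := hcon ι hι P len hP
      exact ⟨Option ι, inferInstance, P', len', hP', by rw [Fintype.card_option, hm]⟩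
  obtain ⟨ι, hι, P, len, hP, hm⟩ := hall (L * (D * U.card) + 1)
  have := hP.card_le hD le_rfl hU
  omega

/-- The set of inner vertices of a family. -/
def innerSet {ι : Type} (P : ι → ℕ → V) (len : ι → ℕ) : Set V :=
  {x | ∃ i l, 1 ≤ l ∧ l < len i ∧ P i l = x}

/-- Property of a maximal family: two vertices of `U` joined by a short path that avoids `U` and
the inner vertices of the family are joined by the family. -/
theorem joined_of_maximal {U : Finset V} {L : ℕ} {ι : Type} {P : ι → ℕ → V} {len : ι → ℕ}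
    (h : PFam G L (U : Set V) P len)
    (hmax : ∀ (P' : Option ι → ℕ → V) (len' : Option ι → ℕ), ¬ PFam G L (U : Set V) P' len')
    {u v : V} (hu : u ∈ U) (hv : v ∈ U) (huv : u ≠ v)
    (hn : Near G ({x | x ∉ U ∧ x ∉ innerSet P len} ∪ {u, v}) L u v) :
    ∃ i, s(P i 0, P i (len i)) = s(u, v) := by
  by_contra hcon
  push Not at hcon
  obtain ⟨Q, n, hnk, hQ0, hQn, hadj, hmem, hinj⟩ := seq_of_near hn
  have hn1 : 1 ≤ n := by
    rcases Nat.eq_zero_or_pos n with h0 | h0
    · subst h0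
      exact absurd (hQ0.symm.trans hQn) huv
    · exact h0
  have hin : ∀ l, 1 ≤ l → l < n → Q l ∉ U ∧ Q l ∉ innerSet P len := by
    intro l h1 h2
    rcases hmem l with h3 | h3
    · exact h3
    · exfalso
      rcases h3 with h3 | h3
      · have := hinj l 0 h2.le (by omega) (h3.trans hQ0.symm)
        omega
      · have := hinj l n h2.le le_rfl (h3.trans hQn.symm)
        omega
  refine hmax _ _ (h.extend Q n hn1 hnk (by rw [hQ0]; exact hu) (by rw [hQn]; exact hv)
    (by rw [hQ0, hQn]; exact huv) hadj (fun l h1 h2 => (hin l h1 h2).1)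
    (fun l m h1 h2 h3 h4 h5 => hinj l m h2.le h4.le h5) ?_ ?_)
  · intro i l m h1 h2 h3 h4 h5
    exact (hin l h1 h2).2 ⟨i, m, h3, h4, h5.symm⟩
  · intro i
    rw [hQ0, hQn]
    exact hcon i

/-- A fan at `v` with respect to `U`. -/
structure Fan (G : SimpleGraph V) (r : ℕ) (U : Set V) (v : V) {κ : Type} (Q : κ → ℕ → V)
    (len : κ → ℕ) : Prop where
  start : ∀ i, Q i 0 = v
  pos : ∀ i, 1 ≤ len i
  le : ∀ i, len i ≤ r
  adj : ∀ i, ∀ l, l < len i → G.Adj (Q i l) (Q i (l + 1))
  last : ∀ i, Q i (len i) ∈ U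
  inner : ∀ i, ∀ l, 1 ≤ l → l < len i → Q i l ∉ U
  ne : ∀ i, ∀ l, 1 ≤ l → l ≤ len i → Q i l ≠ v
  inj : ∀ i j, ∀ l m, 1 ≤ l → l ≤ len i → 1 ≤ m → m ≤ len j → Q i l = Q j m → i = j ∧ l = m

/-- There is a fan with `K` members. -/
def HasFan (G : SimpleGraph V) (r : ℕ) (U : Set V) (v : V) (K : ℕ) : Prop :=
  ∃ (Q : Fin K → ℕ → V) (len : Fin K → ℕ), Fan G r U v Q len

theorem Fan.extend {r : ℕ} {U : Set V} {v : V} {κ : Type} {Q : κ → ℕ → V} {len : κ → ℕ}
    (h : Fan G r U v Q len) (R : ℕ → V) (n : ℕ) (h0 : R 0 = v) (h1 : 1 ≤ n) (h2 : n ≤ r)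
    (h3 : ∀ l, l < n → G.Adj (R l) (R (l + 1))) (h4 : R n ∈ U)
    (h5 : ∀ l, 1 ≤ l → l < n → R l ∉ U) (h6 : ∀ l m, l ≤ n → m ≤ n → R l = R m → l = m)
    (h7 : ∀ i l m, 1 ≤ l → l ≤ n → 1 ≤ m → m ≤ len i → R l ≠ Q i m) :
    Fan G r U v (fun o : Option κ => o.elim R Q) (fun o : Option κ => o.elim n len) := by
  refine ⟨?_, ?_, ?_, ?_, ?_, ?_, ?_, ?_⟩
  · rintro (_ | i); exacts [h0, h.start i]
  · rintro (_ | i); exacts [h1, h.pos i]
  · rintro (_ | i); exacts [h2, h.le i]
  · rintro (_ | i); exacts [h3, h.adj i]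
  · rintro (_ | i); exacts [h4, h.last i]
  · rintro (_ | i); exacts [h5, h.inner i]
  · rintro (_ | i)
    · intro l a1 a2 a3
      have := h6 l 0 a2 (by omega) (a3.trans h0.symm)
      omega
    · exact h.ne i
  · rintro (_ | i) (_ | j) l m a1 a2 a3 a4 a5
    · exact ⟨rfl, h6 l m a2 a4 a5⟩
    · exact absurd a5 (h7 j l m a1 a2 a3 a4)
    · exact absurd a5.symm (h7 i m l a3 a4 a1 a2)
    · obtain ⟨e1, e2⟩ := h.inj i j l m a1 a2 a3 a4 a5
      exact ⟨by rw [e1], e2⟩

theorem HasFan.of_fan {r : ℕ} {U : Set V} {v : V} {κ : Type} [Fintype κ] {Q : κ → ℕ → V}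
    {len : κ → ℕ} (h : Fan G r U v Q len) {K : ℕ} (hK : Fintype.card κ = K) :
    HasFan G r U v K := by
  let e := (Fintype.equivFinOfCardEq hK).symm
  refine ⟨fun i => Q (e i), fun i => len (e i), ⟨fun i => h.start _, fun i => h.pos _,
    fun i => h.le _, fun i => h.adj _, fun i => h.last _, fun i => h.inner _, fun i => h.ne _,
    fun i j l m h1 h2 h3 h4 h5 => ?_⟩⟩
  obtain ⟨e1, e2⟩ := h.inj _ _ l m h1 h2 h3 h4 h5
  exact ⟨e.injective e1, e2⟩

/-- Either a fan with `K` members or a small set that hits all short paths from `v` to `U`. -/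
theorem fan_or_hit (r : ℕ) (U : Set V) (v : V) (K : ℕ) :
    HasFan G r U v K ∨ ∃ F : Finset V, F.card ≤ K * r ∧ v ∉ F ∧
      ∀ u, u ∈ U → u ≠ v → u ∉ F → ¬ Near G ({x | x ∉ U ∧ x ∉ F} ∪ {v, u}) r v u := by
  classical
  induction K with
  | zero =>
    left
    refine ⟨fun e => e.elim0, fun e => e.elim0, ?_⟩
    exact ⟨fun e => e.elim0, fun e => e.elim0, fun e => e.elim0, fun e => e.elim0,
      fun e => e.elim0, fun e => e.elim0, fun e => e.elim0, fun e => e.elim0⟩
  | succ K ih =>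
    rcases ih with ⟨Q, len, hQ⟩ | ⟨F, hF, h1, h2⟩
    · by_cases hhit : ∃ F : Finset V, F.card ≤ (K + 1) * r ∧ v ∉ F ∧
        ∀ u, u ∈ U → u ≠ v → u ∉ F → ¬ Near G ({x | x ∉ U ∧ x ∉ F} ∪ {v, u}) r v u
      · exact Or.inr hhit
      left
      push Not at hhit
      let F : Finset V := (Finset.univ ×ˢ Finset.Icc 1 r).image (fun p : Fin K × ℕ =>
        if p.2 ≤ len p.1 then Q p.1 p.2 else Q p.1 1)
      have hFmem : ∀ i m, 1 ≤ m → m ≤ len i → Q i m ∈ F := by
        intro i m h1 h2
        refine Finset.mem_image.2 ⟨(i, m), ?_, by simp [h2]⟩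
        have := hQ.le i
        simp only [Finset.mem_product, Finset.mem_univ, Finset.mem_Icc, true_and]
        omega
      have hFmem' : ∀ x ∈ F, ∃ i m, 1 ≤ m ∧ m ≤ len i ∧ Q i m = x := by
        intro x hx
        obtain ⟨⟨i, m⟩, hp, rfl⟩ := Finset.mem_image.1 hx
        simp only [Finset.mem_product, Finset.mem_univ, Finset.mem_Icc, true_and] at hp
        by_cases hm : m ≤ len i
        · exact ⟨i, m, hp.1, hm, by simp [hm]⟩
        · exact ⟨i, 1, le_rfl, hQ.pos i, by simp [hm]⟩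
      have hFcard : F.card ≤ (K + 1) * r := by
        refine le_trans Finset.card_image_le ?_
        simp only [Finset.card_product, Finset.card_univ, Fintype.card_fin, Nat.card_Icc,
          Nat.add_sub_cancel]
        exact Nat.mul_le_mul_right _ (Nat.le_succ K)
      have hvF : v ∉ F := by
        intro hv
        obtain ⟨i, m, h1, h2, h3⟩ := hFmem' v hv
        exact hQ.ne i m h1 h2 h3
      obtain ⟨u, huU, huv, huF, hn⟩ := hhit F hFcard hvF
      obtain ⟨R, n, hnk, hR0, hRn, hadj, hmem, hinj⟩ := seq_of_near hn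
      have hn1 : 1 ≤ n := by
        rcases Nat.eq_zero_or_pos n with h0 | h0
        · subst h0
          exact absurd (hRn.symm.trans hR0) huv
        · exact h0
      have hin : ∀ l, 1 ≤ l → l < n → R l ∉ U ∧ R l ∉ F := by
        intro l h1 h2
        rcases hmem l with h3 | h3
        · exact h3
        · exfalso
          rcases h3 with h3 | h3
          · have := hinj l 0 h2.le (by omega) (h3.trans hR0.symm)
            omega
          · have := hinj l n h2.le le_rfl (h3.trans hRn.symm)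
            omega
      refine HasFan.of_fan (hQ.extend R n hR0 hn1 hnk hadj (by rw [hRn]; exact huU)
        (fun l h1 h2 => (hin l h1 h2).1) hinj ?_) (by simp)
      intro i l m h1 h2 h3 h4 h5
      rcases Nat.lt_or_ge l n with h6 | h6
      · exact (hin l h1 h6).2 (h5 ▸ hFmem i m h3 h4)
      · have : l = n := by omega
        subst this
        exact huF (by rw [← hRn, h5]; exact hFmem i m h3 h4)
    · exact Or.inr ⟨F, hF.trans (Nat.mul_le_mul_right _ (Nat.le_succ K)), h1, h2⟩

end Pool.Agent.Helper15.HD
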