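import Pool.Agent.Helper15.HD.Adm

set_option autoImplicit false

/-!
# Weak colouring numbers from densities (module M2)
-/

namespace Pool.Agent.Helper15.HD

open SimpleGraph Pool.Agent.Helper28.HD Finset

variable {V : Type} {G : SimpleGraph V}

/-- The order obtained by repeatedly removing a vertex without large fans. -/
theorem exists_order {X : Finset V} {r K : ℕ}
    (h : ∀ U ⊆ X, U.Nonempty → ∃ v ∈ U, ¬ HasFan G r (U : Set V) v K) (m : ℕ) :
    ∀ U ⊆ X, U.card = m → ∃ π : V → ℕ, Set.InjOn π (U : Set V) ∧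
      ∀ x ∈ U, ¬ HasFan G r {y | y ∈ U ∧ π y ≤ π x} x K := by
  classical
  induction m with
  | zero =>
    intro U _ hm
    rw [Finset.card_eq_zero] at hm
    subst hm
    exact ⟨fun _ => 0, by simp, by simp⟩
  | succ m ih =>
    intro U hU hm
    have hne : U.Nonempty := Finset.card_pos.1 (by omega)
    obtain ⟨v, hv, hnf⟩ := h U hU hne
    obtain ⟨π', hinj, hπ'⟩ := ih (U.erase v) ((Finset.erase_subset _ _).trans hU)
      (by rw [Finset.card_erase_of_mem hv]; omega)
    set N := (U.erase v).sup π' + 1 with hN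
    have hlt : ∀ y ∈ U, y ≠ v → π' y < N := by
      intro y hy hyv
      have : π' y ≤ (U.erase v).sup π' := Finset.le_sup (f := π') (Finset.mem_erase.2 ⟨hyv, hy⟩)
      omega
    refine ⟨Function.update π' v N, ?_, ?_⟩
    · intro y hy z hz hyz
      by_cases h1 : y = v <;> by_cases h2 : z = v
      · rw [h1, h2]
      · exfalso
        rw [h1, Function.update_self, Function.update_of_ne h2] at hyz
        have := hlt z hz h2
        omega
      · exfalso
        rw [h2, Function.update_self, Function.update_of_ne h1] at hyz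
        have := hlt y hy h1
        omega
      · rw [Function.update_of_ne h1, Function.update_of_ne h2] at hyz
        exact hinj (Finset.mem_coe.2 (Finset.mem_erase.2 ⟨h1, hy⟩))
          (Finset.mem_coe.2 (Finset.mem_erase.2 ⟨h2, hz⟩)) hyz
    · intro x hx
      by_cases hxv : x = v
      · subst hxv
        have : {y | y ∈ U ∧ Function.update π' x N y ≤ Function.update π' x N x} = (U : Set V) := by
          ext y
          simp only [Set.mem_ofPred_eq, Finset.mem_coe, Function.update_self, and_iff_left_iff_imp]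
          intro hy
          by_cases hyx : y = x
          · rw [hyx, Function.update_self]
          · rw [Function.update_of_ne hyx]
            exact (hlt y hy hyx).le
        rw [this]
        exact hnf
      · have hx' := hπ' x (Finset.mem_erase.2 ⟨hxv, hx⟩)
        have : {y | y ∈ U ∧ Function.update π' v N y ≤ Function.update π' v N x} =
            {y | y ∈ U.erase v ∧ π' y ≤ π' x} := by
          ext y
          simp only [Set.mem_ofPred_eq, Function.update_of_ne hxv, Finset.mem_erase]
          constructor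
          · rintro ⟨h1, h2⟩
            have hyv : y ≠ v := by
              rintro rfl
              rw [Function.update_self] at h2
              have := hlt x hx hxv
              omega
            rw [Function.update_of_ne hyv] at h2
            exact ⟨⟨hyv, h1⟩, h2⟩
          · rintro ⟨⟨h1, h2⟩, h3⟩
            rw [Function.update_of_ne h1]
            exact ⟨h2, h3⟩
        rw [this]
        exact hx'

open Classical in
/-- The set `T_a(y)`. -/
noncomputable def TT (G : SimpleGraph V) (X : Finset V) (π : V → ℕ) (v : V) (a : ℕ) (y : V) :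
    Finset V :=
  X.filter (fun u => π u < π v ∧ Near G ({x | π v ≤ π x} ∪ {u}) a y u)

theorem mem_TT {X : Finset V} {π : V → ℕ} {v : V} {a : ℕ} {y u : V} :
    u ∈ TT G X π v a y ↔ u ∈ X ∧ π u < π v ∧ Near G ({x | π v ≤ π x} ∪ {u}) a y u := by
  classical
  unfold TT
  rw [Finset.mem_filter]

/-- The hitting property. -/
def Hits (G : SimpleGraph V) (X : Finset V) (π : V → ℕ) (r f : ℕ) : Prop :=
  ∀ x ∈ X, ∃ F : Finset V, F.card ≤ f ∧ x ∉ F ∧ ∀ u, u ∈ {y | y ∈ X ∧ π y ≤ π x} → u ≠ x → u ∉ F →
    ¬ Near G ({z | z ∉ {y | y ∈ X ∧ π y ≤ π x} ∧ z ∉ F} ∪ {x, u}) r x u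

theorem mem_of_seq {X : Finset V} (hX : ∀ u v, G.Adj u v → u ∈ X) {P : ℕ → V} {n : ℕ}
    (hadj : ∀ l, l < n → G.Adj (P l) (P (l + 1))) {l : ℕ} (h1 : 1 ≤ l) (h2 : l ≤ n) : P l ∈ X := by
  have := hadj (l - 1) (by omega)
  rw [show l - 1 + 1 = l by omega] at this
  exact hX _ _ this.symm

/-- (B): strong reachability. -/
theorem card_TT_le {X : Finset V} {π : V → ℕ} {r f : ℕ} (hX : ∀ u v, G.Adj u v → u ∈ X)
    (hh : Hits G X π r f) (v : V) (a : ℕ) :
    ∀ y ∈ X, a ≤ r → π v ≤ π y → (TT G X π v a y).card + 1 ≤ (f + 1) ^ a := by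
  classical
  induction a with
  | zero =>
    intro y _ _ hvy
    have : TT G X π v 0 y = ∅ := by
      rw [Finset.eq_empty_iff_forall_notMem]
      intro u hu
      rw [mem_TT, near_zero] at hu
      have := hu.2.1
      rw [← hu.2.2.1] at this
      omega
    rw [this]; simp
  | succ a ih =>
    intro y hy ha hvy
    obtain ⟨F, hF, hyF, hhit⟩ := hh y hy
    have hsub : TT G X π v (a + 1) y ⊆
        F.biUnion (fun z => insert z (if z ∈ X ∧ π v ≤ π z then TT G X π v a z else ∅)) := by
      intro u hu
      rw [mem_TT] at hu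
      obtain ⟨huX, huv, hn⟩ := hu
      obtain ⟨P, n, hn1, hP0, hPn, hadj, hmem, hinj⟩ := seq_of_near hn
      have hn0 : 1 ≤ n := by
        rcases Nat.eq_zero_or_pos n with h0 | h0
        · exfalso
          subst h0
          rw [← hPn, hP0] at huv
          omega
        · exact h0
      have hex : ∃ l, 1 ≤ l ∧ l ≤ n ∧ π (P l) ≤ π y := ⟨n, hn0, le_rfl, by rw [hPn]; omega⟩
      obtain ⟨g1, g2, g3⟩ := Nat.find_spec hex
      set l0 := Nat.find hex with hl0
      have hmin : ∀ l, 1 ≤ l → l < l0 → π y < π (P l) := by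
        intro l h1 h2
        by_contra h3
        exact Nat.find_min hex h2 ⟨h1, by omega, by omega⟩
      -- the path up to `l0` meets `F`
      have hmeet : ∃ m, 1 ≤ m ∧ m ≤ l0 ∧ P m ∈ F := by
        by_contra hcon
        push Not at hcon
        refine hhit (P l0) ⟨mem_of_seq hX hadj g1 g2, g3⟩ ?_ (hcon l0 g1 le_rfl) ?_
        · intro h
          have := hinj l0 0 g2 (by omega) (h.trans hP0.symm)
          omega
        · have hnear := near_of_seq (G := G) P
            ({z | z ∉ {w | w ∈ X ∧ π w ≤ π y} ∧ z ∉ F} ∪ {y, P l0}) 0 l0 (Nat.zero_le _)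
            (fun l _ h2 => hadj l (by omega)) (fun l _ h2 => ?_)
          · rw [hP0] at hnear
            exact hnear.mono (by omega) subset_rfl
          · rcases Nat.eq_zero_or_pos l with h0 | h0
            · right; left; rw [h0, hP0]
            · rcases Nat.lt_or_ge l l0 with h3 | h3
              · left
                refine ⟨fun h4 => ?_, hcon l h0 h2⟩
                have := hmin l h0 h3
                have := h4.2
                omega
              · right; right
                rw [show l = l0 by omega]; rfl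
      obtain ⟨m, hm1, hm2, hmF⟩ := hmeet
      rw [Finset.mem_biUnion]
      refine ⟨P m, hmF, ?_⟩
      rw [Finset.mem_insert]
      rcases Nat.lt_or_ge m n with hmn | hmn
      · right
        have hne : P m ≠ u := by
          intro h
          have := hinj m n (by omega) le_rfl (h.trans hPn.symm)
          omega
        have hPm : π v ≤ π (P m) := by
          rcases hmem m with h | h
          · exact h
          · exact absurd h hne
        rw [if_pos ⟨mem_of_seq hX hadj hm1 (by omega), hPm⟩, mem_TT]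
        refine ⟨huX, huv, ?_⟩
        have hnear := near_of_seq (G := G) P ({x | π v ≤ π x} ∪ {u}) m n hmn.le
          (fun l _ h2 => hadj l h2) (fun l _ _ => hmem l)
        rw [hPn] at hnear
        exact hnear.mono (by omega) subset_rfl
      · left
        rw [← hPn, show m = n by omega]
    have hcard : (TT G X π v (a + 1) y).card ≤ f * (f + 1) ^ a := by
      calc (TT G X π v (a + 1) y).card ≤ _ := Finset.card_le_card hsub
        _ ≤ ∑ z ∈ F, (insert z (if z ∈ X ∧ π v ≤ π z then TT G X π v a z else ∅)).card :=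
            Finset.card_biUnion_le
        _ ≤ ∑ _z ∈ F, (f + 1) ^ a := by
            refine Finset.sum_le_sum fun z _ => ?_
            refine (Finset.card_insert_le _ _).trans ?_
            split_ifs with hz
            · exact ih z hz.1 (by omega) hz.2
            · rw [Finset.card_empty, zero_add]
              exact Nat.one_le_pow _ _ (by omega)
        _ = F.card * (f + 1) ^ a := by rw [Finset.sum_const, smul_eq_mul]
        _ ≤ f * (f + 1) ^ a := Nat.mul_le_mul_right _ hF
    have h1 : 1 ≤ (f + 1) ^ a := Nat.one_le_pow _ _ (by omega)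
    calc (TT G X π v (a + 1) y).card + 1 ≤ f * (f + 1) ^ a + (f + 1) ^ a := by omega
      _ = (f + 1) ^ (a + 1) := by ring

open Classical in
/-- (C): weak reachability. -/
theorem card_WR_le {X : Finset V} {π : V → ℕ} {r τ : ℕ} (hX : ∀ u v, G.Adj u v → u ∈ X)
    (hinjX : Set.InjOn π (X : Set V)) (hT : ∀ v ∈ X, (TT G X π v r v).card + 1 ≤ τ) (a : ℕ) :
    ∀ v ∈ X, a ≤ r → (X.filter (fun u => WR G π a v u)).card ≤ τ ^ a := by
  induction a with
  | zero =>
    intro v _ _
    have : X.filter (fun u => WR G π 0 v u) ⊆ {v} := by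
      intro u hu
      obtain ⟨p, hp, -⟩ := (Finset.mem_filter.1 hu).2
      rw [Finset.mem_singleton]
      exact (Walk.eq_of_length_eq_zero (by omega : p.length = 0)).symm
    simpa using Finset.card_le_card this
  | succ a ih =>
    intro v hv ha
    have hsub : X.filter (fun u => WR G π (a + 1) v u) ⊆
        insert v ((TT G X π v r v).biUnion (fun z => X.filter (fun u => WR G π a z u))) := by
      intro u hu
      obtain ⟨huX, hw⟩ := Finset.mem_filter.1 hu
      have hn : Near G {x | π u ≤ π x} (a + 1) v u := hw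
      rw [Finset.mem_insert]
      by_cases huv : u = v
      · exact Or.inl huv
      right
      obtain ⟨P, n, hn1, hP0, hPn, hadj, hmem, hinj⟩ := seq_of_near hn
      have hle : π u ≤ π v := by
        have := hmem 0
        rw [hP0] at this
        exact this
      have hlt : π u < π v := lt_of_le_of_ne hle (fun h => huv (hinjX huX hv h))
      have hex : ∃ l, l ≤ n ∧ π (P l) < π v := ⟨n, le_rfl, by rw [hPn]; exact hlt⟩
      obtain ⟨g1, g2⟩ := Nat.find_spec hex
      set l0 := Nat.find hex with hl0
      have hl01 : 1 ≤ l0 := by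
        rcases Nat.eq_zero_or_pos l0 with h0 | h0
        · exfalso
          rw [h0, hP0] at g2
          omega
        · exact h0
      have hmin : ∀ l, l < l0 → π v ≤ π (P l) := by
        intro l h2
        by_contra h3
        exact Nat.find_min hex h2 ⟨by omega, by omega⟩
      rw [Finset.mem_biUnion]
      refine ⟨P l0, ?_, ?_⟩
      · rw [mem_TT]
        refine ⟨mem_of_seq hX hadj hl01 g1, g2, ?_⟩
        have hnear := near_of_seq (G := G) P ({x | π v ≤ π x} ∪ {P l0}) 0 l0 (Nat.zero_le _)
          (fun l _ h2 => hadj l (by omega)) (fun l _ h2 => by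
            rcases Nat.lt_or_ge l l0 with h3 | h3
            · left; exact hmin l h3
            · right; rw [show l = l0 by omega]; rfl)
        rw [hP0] at hnear
        exact hnear.mono (by omega) subset_rfl
      · refine Finset.mem_filter.2 ⟨huX, ?_⟩
        have hnear := near_of_seq (G := G) P {x | π u ≤ π x} l0 n g1
          (fun l _ h2 => hadj l h2) (fun l _ _ => hmem l)
        rw [hPn] at hnear
        exact hnear.mono (by omega) subset_rfl
    have hτ : 1 ≤ τ := by have := hT v hv; omega
    calc (X.filter (fun u => WR G π (a + 1) v u)).card ≤ _ := Finset.card_le_card hsub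
      _ ≤ ((TT G X π v r v).biUnion (fun z => X.filter (fun u => WR G π a z u))).card + 1 :=
          Finset.card_insert_le _ _
      _ ≤ (∑ z ∈ TT G X π v r v, (X.filter (fun u => WR G π a z u)).card) + 1 :=
          Nat.add_le_add_right Finset.card_biUnion_le _
      _ ≤ (∑ _z ∈ TT G X π v r v, τ ^ a) + 1 := by
          refine Nat.add_le_add_right (Finset.sum_le_sum fun z hz => ?_) _
          exact ih z (mem_TT.1 hz).1 (by omega)
      _ = (TT G X π v r v).card * τ ^ a + 1 := by rw [Finset.sum_const, smul_eq_mul]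
      _ ≤ (TT G X π v r v).card * τ ^ a + τ ^ a := by
          have : 1 ≤ τ ^ a := Nat.one_le_pow _ _ hτ
          omega
      _ = ((TT G X π v r v).card + 1) * τ ^ a := by ring
      _ ≤ τ * τ ^ a := Nat.mul_le_mul_right _ (hT v hv)
      _ = τ ^ (a + 1) := by ring

theorem KK_le (r D : ℕ) : KK r D ≤ (8 * r + r * (1 + 8 * r * r * (8 * r + 1)) + 1) * (D + 1) ^ 3 := by
  unfold KK
  have h1 : D ≤ (D + 1) ^ 3 := by nlinarith [sq_nonneg D, sq_nonneg (D + 1)]
  have h2 : D * D ≤ (D + 1) ^ 3 := by nlinarith [sq_nonneg D, sq_nonneg (D + 1), Nat.zero_le (D ^ 3)]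
  have h3 : D * D * D ≤ (D + 1) ^ 3 := by nlinarith [sq_nonneg D, sq_nonneg (D + 1)]
  have h4 : 1 ≤ (D + 1) ^ 3 := Nat.one_le_pow _ _ (by omega)
  have e1 : 8 * r * D + r * D * (1 + 8 * r * r * D * (8 * r * D + 1)) + 1 =
      (8 * r + r) * D + 8 * r * r * r * (D * D) + 64 * r * r * r * r * (D * D * D) + 1 := by ring
  have e2 : (8 * r + r * (1 + 8 * r * r * (8 * r + 1)) + 1) * (D + 1) ^ 3 =
      (8 * r + r) * (D + 1) ^ 3 + 8 * r * r * r * (D + 1) ^ 3 + 64 * r * r * r * r * (D + 1) ^ 3 +
        (D + 1) ^ 3 := by ring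
  rw [e1, e2]
  have f1 := Nat.mul_le_mul_left (8 * r + r) h1
  have f2 := Nat.mul_le_mul_left (8 * r * r * r) h2
  have f3 := Nat.mul_le_mul_left (64 * r * r * r * r) h3
  omega

open Classical in
/-- The bound for one graph. -/
theorem wcol_of_DB {X : Finset V} {r D : ℕ} (hr : 1 ≤ r) (hX : ∀ u v, G.Adj u v → u ∈ X)
    (hD : DB G X (2 * r) D) :
    ∃ π : V → ℕ, Set.InjOn π (X : Set V) ∧
      ∀ v ∈ X, (X.filter (fun u => WR G π r v u)).card ≤ (KK r D * r + 1) ^ (r * r) := by
  obtain ⟨π, hinj, hπ⟩ := exists_order (G := G) (X := X) (r := r) (K := KK r D)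
    (fun U hU hne => exists_no_fan hr hX hD hU hne) X.card X subset_rfl rfl
  have hh : Hits G X π r (KK r D * r) := by
    intro x hx
    rcases fan_or_hit (G := G) r {y | y ∈ X ∧ π y ≤ π x} x (KK r D) with h | h
    · exact absurd h (hπ x hx)
    · exact h
  refine ⟨π, hinj, fun v hv => ?_⟩
  have := card_WR_le hX hinj (fun v hv => card_TT_le hX hh v r v hv le_rfl le_rfl) r v hv le_rfl
  rwa [← pow_mul] at this

/-- **Module M2.** -/
theorem wcol (t : ℕ → ℕ) (h : DenBound t) : WcolBound t := by
  classical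
  -- the case r ≥ 1
  have main : ∀ r j, 1 ≤ r → 1 ≤ j → ∃ c : ℕ, ∀ (V : Type) (G : SimpleGraph V), Excl G t →
      ∀ X : Finset V, (∀ u v, G.Adj u v → u ∈ X) →
      ∃ π : V → ℕ, Set.InjOn π (X : Set V) ∧
        ∀ v ∈ X, (X.filter (fun u => WR G π r v u)).card ^ j ≤ c * X.card := by
    intro r j hr hj
    set j' := j * (3 * (r * r) + 1) with hj'
    have hj'1 : 1 ≤ j' := Nat.mul_pos hj (by omega)
    choose c hc using h j' hj'1
    set c' := ∑ s ∈ Finset.range (2 * r), c s + 1 with hc'
    set A := (8 * r + r * (1 + 8 * r * r * (8 * r + 1)) + 1) * r + 1 with hA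
    refine ⟨A ^ (r * r * j) * (4 ^ j' * c'), ?_⟩
    intro V G hG X hX
    rcases X.eq_empty_or_nonempty with hXe | hXne
    · subst hXe
      exact ⟨fun _ => 0, by simp, by simp⟩
    have hn : 1 ≤ X.card := Finset.card_pos.2 hXne
    have hex : ∃ D : ℕ, c' * X.card ≤ D ^ j' := ⟨c' * X.card, Nat.le_self_pow (by omega) _⟩
    set D := Nat.find hex with hDdef
    have hD1 : c' * X.card ≤ D ^ j' := Nat.find_spec hex
    have hcn : 1 ≤ c' * X.card := Nat.mul_pos (by omega) hn
    have hD2 : (D + 1) ^ j' ≤ 4 ^ j' * (c' * X.card) := by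
      rcases Nat.lt_or_ge D 2 with h2 | h2
      · calc (D + 1) ^ j' ≤ 4 ^ j' := Nat.pow_le_pow_left (by omega) _
          _ = 4 ^ j' * 1 := (mul_one _).symm
          _ ≤ 4 ^ j' * (c' * X.card) := Nat.mul_le_mul_left _ hcn
      · have h3 : ¬ c' * X.card ≤ (D - 1) ^ j' := Nat.find_min hex (by omega)
        calc (D + 1) ^ j' ≤ (4 * (D - 1)) ^ j' := Nat.pow_le_pow_left (by omega) _
          _ = 4 ^ j' * (D - 1) ^ j' := Nat.mul_pow _ _ _
          _ ≤ 4 ^ j' * (c' * X.card) := Nat.mul_le_mul_left _ (by omega)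
    have hDB : DB G X (2 * r) D := by
      intro s hs Y hY ι _ P hP
      have h1 := hc s V G hG Y ι P hP
      have h2 : c s ≤ c' := by
        have : c s ≤ ∑ s ∈ Finset.range (2 * r), c s :=
          Finset.single_le_sum (fun _ _ => Nat.zero_le _) (Finset.mem_range.2 hs)
        omega
      have h3 : Y.card ≤ X.card := Finset.card_le_card hY
      have h4 : (Fintype.card ι) ^ j' ≤ (D * Y.card) ^ j' := by
        calc (Fintype.card ι) ^ j' ≤ c s * Y.card ^ (j' + 1) := h1
          _ = (c s * Y.card) * Y.card ^ j' := by ring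
          _ ≤ (c' * X.card) * Y.card ^ j' := Nat.mul_le_mul_right _ (Nat.mul_le_mul h2 h3)
          _ ≤ D ^ j' * Y.card ^ j' := Nat.mul_le_mul_right _ hD1
          _ = (D * Y.card) ^ j' := (Nat.mul_pow _ _ _).symm
      exact (Nat.pow_le_pow_iff_left (by omega)).1 h4
    obtain ⟨π, hinj, hπ⟩ := wcol_of_DB hr hX hDB
    refine ⟨π, hinj, fun v hv => ?_⟩
    have hf : KK r D * r + 1 ≤ A * (D + 1) ^ 3 := by
      have h4 : 1 ≤ (D + 1) ^ 3 := Nat.one_le_pow _ _ (by omega)
      calc KK r D * r + 1 ≤
          ((8 * r + r * (1 + 8 * r * r * (8 * r + 1)) + 1) * (D + 1) ^ 3) * r + (D + 1) ^ 3 :=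
            Nat.add_le_add (Nat.mul_le_mul_right _ (KK_le r D)) h4
        _ = A * (D + 1) ^ 3 := by rw [hA]; ring
    calc (X.filter (fun u => WR G π r v u)).card ^ j
        ≤ ((KK r D * r + 1) ^ (r * r)) ^ j := Nat.pow_le_pow_left (hπ v hv) _
      _ ≤ ((A * (D + 1) ^ 3) ^ (r * r)) ^ j :=
          Nat.pow_le_pow_left (Nat.pow_le_pow_left hf _) _
      _ = A ^ (r * r * j) * (D + 1) ^ (3 * (r * r) * j) := by
          rw [Nat.mul_pow, Nat.mul_pow, ← pow_mul, ← pow_mul, ← pow_mul]
          congr 1
          ring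
      _ ≤ A ^ (r * r * j) * (D + 1) ^ j' := by
          refine Nat.mul_le_mul_left _ (Nat.pow_le_pow_right (by omega) ?_)
          rw [hj']
          nlinarith
      _ ≤ A ^ (r * r * j) * (4 ^ j' * (c' * X.card)) := Nat.mul_le_mul_left _ hD2
      _ = A ^ (r * r * j) * (4 ^ j' * c') * X.card := by ring
  intro r j hj
  rcases Nat.eq_zero_or_pos r with h0 | h0
  · obtain ⟨c, hc⟩ := main 1 j le_rfl hj
    refine ⟨c, fun V G hG X hX => ?_⟩
    obtain ⟨π, hinj, hπ⟩ := hc V G hG X hX
    refine ⟨π, hinj, fun v hv => le_trans (Nat.pow_le_pow_left (Finset.card_le_card ?_) _) (hπ v hv)⟩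
    intro u hu
    obtain ⟨h1, p, h2, h3⟩ := Finset.mem_filter.1 hu
    exact Finset.mem_filter.2 ⟨h1, p, by omega, h3⟩
  · obtain ⟨c, hc⟩ := main r j h0 hj
    refine ⟨c, fun V G hG X hX => ?_⟩
    obtain ⟨π, hinj, hπ⟩ := hc V G hG X hX
    exact ⟨π, hinj, fun v hv => le_trans (Nat.pow_le_pow_left (Finset.card_le_card (by
      intro u hu
      have := Finset.mem_filter.1 hu
      exact Finset.mem_filter.2 this)) _) (hπ v hv)⟩

end Pool.Agent.Helper15.HD
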